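import Pool.Agent.helper7.IG.Stmt1

/-!
# IG: modules R0 and R1
-/

set_option autoImplicit false

open Finset

noncomputable section

namespace Pool.Agent.helper7.IG

open Classical in
/-- The indicator series of a set of natural numbers. -/
def r01_ind (A : ℕ → Prop) : LL := ps fun n => if A n then 1 else 0

open Classical in
lemma r01_ind_coeff (A : ℕ → Prop) (n : ℕ) : (r01_ind A).coeff (n : ℤ) = if A n then 1 else 0 :=
  ps_coeff_nat _ n

lemma r01_ps_ext {F G : LL} (hF : ∀ n : ℤ, n < 0 → F.coeff n = 0)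
    (hG : ∀ n : ℤ, n < 0 → G.coeff n = 0) (h : ∀ n : ℕ, F.coeff (n : ℤ) = G.coeff (n : ℤ)) :
    F = G := by
  ext n
  rcases lt_or_ge n 0 with hn | hn
  · rw [hF n hn, hG n hn]
  · obtain ⟨m, rfl⟩ := Int.eq_ofNat_of_zero_le hn
    exact h m

lemma r01_ps_mul (f g : ℕ → kk) :
    ps f * ps g = ps fun n => ∑ p ∈ antidiagonal n, f p.1 * g p.2 := by
  unfold ps
  rw [← map_mul]
  congr 1
  ext n
  rw [PowerSeries.coeff_mul, PowerSeries.coeff_mk]
  simp only [PowerSeries.coeff_mk]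

open Classical in
lemma r01_ind_mul_coeff (A B : ℕ → Prop) (n : ℕ) :
    (r01_ind A * r01_ind B).coeff (n : ℤ) =
      (((antidiagonal n).filter (fun p => A p.1 ∧ B p.2)).card : kk) := by
  unfold r01_ind
  rw [r01_ps_mul, ps_coeff_nat, Finset.card_filter]
  push_cast
  refine Finset.sum_congr rfl fun p _ => ?_
  by_cases h1 : A p.1 <;> by_cases h2 : B p.2 <;> simp [h1, h2]

open Classical in
lemma r01_ind_mul_neg (A B : ℕ → Prop) (n : ℤ) (hn : n < 0) :
    (r01_ind A * r01_ind B).coeff n = 0 := by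
  unfold r01_ind
  rw [r01_ps_mul]
  exact ps_coeff_neg _ n hn

lemma r01_two : (2 : kk) = 0 := by
  have h : ((2 : ℕ) : kk) = 0 := CharP.cast_eq_zero kk 2
  exact_mod_cast h

/-- Squaring an indicator series doubles the exponents. -/
lemma r01_ind_sq (A : ℕ → Prop) :
    (r01_ind A) ^ 2 = r01_ind (fun n => ∃ m, n = 2 * m ∧ A m) := by
  classical
  rw [pow_two]
  refine r01_ps_ext (fun n hn => r01_ind_mul_neg A A n hn)
    (fun n hn => ps_coeff_neg _ n hn) fun n => ?_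
  rw [r01_ind_mul_coeff, r01_ind_coeff]
  by_cases hn : ∃ m, n = 2 * m ∧ A m
  · rw [if_pos hn]
    obtain ⟨m, rfl, hm⟩ := hn
    have h1 : ((antidiagonal (2 * m)).filter (fun p => A p.1 ∧ A p.2)) =
        insert (m, m) (((antidiagonal (2 * m)).filter (fun p => A p.1 ∧ A p.2)).filter
          (fun p => p.1 ≠ p.2)) := by
      ext ⟨i, j⟩
      simp only [mem_filter, HasAntidiagonal.mem_antidiagonal, mem_insert, Prod.mk.injEq]
      constructor
      · rintro ⟨h, h', h''⟩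
        by_cases hij : i = j
        · left
          omega
        · right
          exact ⟨⟨h, h', h''⟩, hij⟩
      · rintro (⟨rfl, rfl⟩ | ⟨h, _⟩)
        · exact ⟨by omega, hm, hm⟩
        · exact h
    have h2 : ∑ p ∈ ((antidiagonal (2 * m)).filter (fun p => A p.1 ∧ A p.2)).filter
          (fun p => p.1 ≠ p.2), (1 : kk) = 0 := by
      refine Finset.sum_involution (fun p _ => (p.2, p.1)) ?_ ?_ ?_ ?_
      · intro p _
        have := r01_two
        norm_num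
        exact this
      · rintro ⟨i, j⟩ hp _ h
        simp only [mem_filter, Prod.mk.injEq] at hp h
        exact hp.2 h.2
      · rintro ⟨i, j⟩ hp
        simp only [mem_filter, HasAntidiagonal.mem_antidiagonal] at hp ⊢
        exact ⟨⟨by omega, hp.1.2.2, hp.1.2.1⟩, fun h => hp.2 h.symm⟩
      · rintro ⟨i, j⟩ _
        rfl
    rw [Finset.sum_const, nsmul_eq_mul, mul_one] at h2
    rw [h1, Finset.card_insert_of_notMem (by simp)]
    push_cast
    rw [h2, zero_add]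
  · rw [if_neg hn]
    have h2 : ∑ p ∈ ((antidiagonal n).filter (fun p => A p.1 ∧ A p.2)), (1 : kk) = 0 := by
      refine Finset.sum_involution (fun p _ => (p.2, p.1)) ?_ ?_ ?_ ?_
      · intro p _
        have := r01_two
        norm_num
        exact this
      · rintro ⟨i, j⟩ hp _ h
        simp only [mem_filter, HasAntidiagonal.mem_antidiagonal, Prod.mk.injEq] at hp h
        exact hn ⟨i, by omega, hp.2.1⟩
      · rintro ⟨i, j⟩ hp
        simp only [mem_filter, HasAntidiagonal.mem_antidiagonal] at hp ⊢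
        exact ⟨by omega, hp.2.2, hp.2.1⟩
      · rintro ⟨i, j⟩ _
        rfl
    rw [Finset.sum_const, nsmul_eq_mul, mul_one] at h2
    exact h2

lemma r01_ind_pow (A : ℕ → Prop) (k : ℕ) :
    (r01_ind A) ^ (2 ^ k) = r01_ind (fun n => ∃ m, n = 2 ^ k * m ∧ A m) := by
  induction k with
  | zero =>
    rw [pow_zero, pow_one]
    congr 1
    funext n
    apply propext
    constructor
    · intro h
      exact ⟨n, by simp, h⟩
    · rintro ⟨m, hm, h⟩
      simp only [one_mul] at hm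
      rw [hm]
      exact h
  | succ k ih =>
    rw [pow_succ, pow_mul, ih, r01_ind_sq]
    congr 1
    funext n
    apply propext
    constructor
    · rintro ⟨m, rfl, l, rfl, h⟩
      exact ⟨l, by ring, h⟩
    · rintro ⟨m, rfl, h⟩
      exact ⟨2 ^ k * m, by ring, m, rfl, h⟩

lemma r01_th (s : ℕ) (c : ℤ) :
    th s c = r01_ind (fun n => ∃ m : ℤ, m ^ 2 = n ∧ m ≡ c [ZMOD 2 ^ s]) := rfl

/-- An odd integer is not congruent to its negative modulo `2 ^ s`, `s ≥ 2`. -/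
lemma r01_neg {s : ℕ} (hs : 2 ≤ s) {c m m' : ℤ} (hc : Odd c) (h : m ≡ c [ZMOD 2 ^ s])
    (h' : m' ≡ c [ZMOD 2 ^ s]) (hmm : m = -m') : False := by
  obtain ⟨k, hk⟩ := hc
  have h4 : (4 : ℤ) ∣ 2 ^ s := by
    have : (2 : ℤ) ^ 2 ∣ 2 ^ s := pow_dvd_pow 2 hs
    norm_num at this
    exact this
  have h1 : (4 : ℤ) ∣ c - m := h4.trans h.dvd
  have h2 : (4 : ℤ) ∣ c - m' := h4.trans h'.dvd
  omega

theorem R0 : R0_stmt := by
  intro s hs c hc
  classical
  refine r01_ps_ext (fun n hn => ?_) (fun n hn => ?_) fun n => ?_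
  · rw [HahnSeries.coeff_add, r01_th, r01_th]
    unfold r01_ind
    rw [ps_coeff_neg _ n hn, ps_coeff_neg _ n hn, add_zero]
  · rw [r01_th]
    exact ps_coeff_neg _ n hn
  · rw [HahnSeries.coeff_add, r01_th, r01_th, r01_th, r01_ind_coeff, r01_ind_coeff, r01_ind_coeff]
    have hsplit : ∀ m : ℤ, m ≡ c [ZMOD 2 ^ s] →
        m ≡ c [ZMOD 2 ^ (s + 1)] ∨ m ≡ c + 2 ^ s [ZMOD 2 ^ (s + 1)] := by
      intro m hm
      obtain ⟨k, hk⟩ := hm.symm.dvd
      rcases Int.even_or_odd k with ⟨l, hl⟩ | ⟨l, hl⟩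
      · left
        refine (Int.modEq_iff_dvd.mpr ⟨l, ?_⟩).symm
        rw [hk, hl]
        ring
      · right
        refine (Int.modEq_iff_dvd.mpr ⟨l, ?_⟩).symm
        have : m = c + 2 ^ s * k := by linarith
        rw [this, hl]
        ring
    have hdown : ∀ m c' : ℤ, m ≡ c' [ZMOD 2 ^ (s + 1)] → m ≡ c' [ZMOD 2 ^ s] := fun m c' h =>
      h.of_dvd (pow_dvd_pow 2 (Nat.le_succ s))
    have hadd : c + 2 ^ s ≡ c [ZMOD 2 ^ s] := by
      refine (Int.modEq_iff_dvd.mpr ⟨1, ?_⟩).symm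
      ring
    have hne : ¬ (c ≡ c + 2 ^ s [ZMOD 2 ^ (s + 1)]) := by
      intro h
      obtain ⟨k, hk⟩ := h.dvd
      have h1 : (2 : ℤ) ^ s * 1 = 2 ^ s * (2 * k) := by
        have : c + 2 ^ s - c = 2 ^ (s + 1) * k := hk
        rw [pow_succ] at this
        linarith
      have h2 := mul_left_cancel₀ (pow_ne_zero s (by norm_num : (2 : ℤ) ≠ 0)) h1
      omega
    by_cases h1 : ∃ m : ℤ, m ^ 2 = n ∧ m ≡ c [ZMOD 2 ^ (s + 1)]
    · have h2 : ¬ ∃ m : ℤ, m ^ 2 = n ∧ m ≡ c + 2 ^ s [ZMOD 2 ^ (s + 1)] := by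
        rintro ⟨m', hm', hmc'⟩
        obtain ⟨m, hm, hmc⟩ := h1
        have h3 : m ^ 2 = m' ^ 2 := by rw [hm, hm']
        rcases sq_eq_sq_iff_eq_or_eq_neg.mp h3 with h4 | h4
        · apply hne
          rw [h4] at hmc
          exact hmc.symm.trans hmc'
        · exact r01_neg hs hc (hdown _ _ hmc) ((hdown _ _ hmc').trans hadd) h4
      have h3 : ∃ m : ℤ, m ^ 2 = n ∧ m ≡ c [ZMOD 2 ^ s] := by
        obtain ⟨m, hm, hmc⟩ := h1
        exact ⟨m, hm, hdown _ _ hmc⟩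
      rw [if_pos h1, if_neg h2, if_pos h3, add_zero]
    · by_cases h2 : ∃ m : ℤ, m ^ 2 = n ∧ m ≡ c + 2 ^ s [ZMOD 2 ^ (s + 1)]
      · have h3 : ∃ m : ℤ, m ^ 2 = n ∧ m ≡ c [ZMOD 2 ^ s] := by
          obtain ⟨m, hm, hmc⟩ := h2
          exact ⟨m, hm, (hdown _ _ hmc).trans hadd⟩
        rw [if_neg h1, if_pos h2, if_pos h3, zero_add]
      · have h3 : ¬ ∃ m : ℤ, m ^ 2 = n ∧ m ≡ c [ZMOD 2 ^ s] := by
          rintro ⟨m, hm, hmc⟩
          rcases hsplit m hmc with h | h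
          · exact h1 ⟨m, hm, h⟩
          · exact h2 ⟨m, hm, h⟩
        rw [if_neg h1, if_neg h2, if_neg h3, add_zero]

theorem R1 : R1_stmt := by
  intro s hs c hc
  classical
  obtain ⟨s', rfl⟩ : ∃ s', s = s' + 2 := ⟨s - 2, by omega⟩
  have hs1 : s' + 2 - 1 = s' + 1 := by omega
  rw [hs1]
  -- right-hand side
  have hD : DDk ^ (2 * 4 ^ (s' + 1)) =
      r01_ind (fun n => ∃ m : ℕ, n = 2 ^ (1 + 2 * (s' + 1)) * m ∧
        ∃ b : ℤ, b ^ 2 = m ∧ b ≡ 1 [ZMOD 2 ^ 1]) := by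
    have h4 : 2 * 4 ^ (s' + 1) = 2 ^ (1 + 2 * (s' + 1)) := by
      rw [pow_add 2 1, pow_mul]
      norm_num
    rw [h4]
    unfold DDk
    rw [r01_th, r01_ind_pow]
  have hT : (th (s' + 2) (c + 2 ^ (s' + 1))) ^ 2 =
      r01_ind (fun n => ∃ m : ℕ, n = 2 * m ∧
        ∃ a : ℤ, a ^ 2 = m ∧ a ≡ c + 2 ^ (s' + 1) [ZMOD 2 ^ (s' + 2)]) := by
    rw [r01_th, r01_ind_sq]
  rw [hD, hT, r01_th, r01_th]
  refine r01_ps_ext (fun n hn => r01_ind_mul_neg _ _ n hn)
    (fun n hn => r01_ind_mul_neg _ _ n hn) fun N => ?_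
  rw [r01_ind_mul_coeff, r01_ind_mul_coeff]
  -- the finite set of pairs of integers
  set P : Finset (ℤ × ℤ) := ((Finset.Icc (-(N : ℤ)) N) ×ˢ (Finset.Icc (-(N : ℤ)) N)).filter
    (fun p => p.1 ≡ c [ZMOD 2 ^ (s' + 2 + 1)] ∧ p.2 ≡ c + 2 ^ (s' + 2) [ZMOD 2 ^ (s' + 2 + 1)] ∧
      p.1 ^ 2 + p.2 ^ 2 = N) with hP
  have hmemP : ∀ m n : ℤ, (m, n) ∈ P ↔ m ≡ c [ZMOD 2 ^ (s' + 2 + 1)] ∧
      n ≡ c + 2 ^ (s' + 2) [ZMOD 2 ^ (s' + 2 + 1)] ∧ m ^ 2 + n ^ 2 = N := by
    intro m n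
    rw [hP, Finset.mem_filter, Finset.mem_product, Finset.mem_Icc, Finset.mem_Icc]
    constructor
    · exact fun h => h.2
    · intro h
      refine ⟨⟨⟨?_, ?_⟩, ?_, ?_⟩, h⟩ <;> nlinarith [h.2.2, sq_nonneg m, sq_nonneg n,
        sq_nonneg (m - 1), sq_nonneg (m + 1), sq_nonneg (n - 1), sq_nonneg (n + 1)]
  obtain ⟨k0, hk0⟩ := hc
  have hpow4 : (2 : ℤ) ^ (s' + 2) = 4 * 2 ^ s' := by ring
  have hpow8 : (2 : ℤ) ^ (s' + 2 + 1) = 8 * 2 ^ s' := by ring
  have hpow2 : (2 : ℤ) ^ (s' + 1) = 2 * 2 ^ s' := by ring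
  have hpos : (0 : ℤ) < 2 ^ s' := by positivity
  set q : ℤ := 2 ^ s' with hq
  have hcm : ∀ (m c' : ℤ), m ≡ c' [ZMOD 2 ^ (s' + 2 + 1)] → ∃ k, m = c' + 8 * q * k := by
    intro m c' h
    obtain ⟨k, hk⟩ := h.symm.dvd
    rw [hpow8] at hk
    exact ⟨k, by linarith⟩
  have hcm' : ∀ (m c' k : ℤ), m = c' + 8 * q * k → m ≡ c' [ZMOD 2 ^ (s' + 2 + 1)] := by
    intro m c' k h
    refine (Int.modEq_iff_dvd.mpr ⟨k, ?_⟩).symm
    rw [hpow8, h]
    ring
  have h1 : P.card = ((antidiagonal N).filter (fun p =>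
      (∃ m : ℤ, m ^ 2 = ((p.1 : ℕ) : ℤ) ∧ m ≡ c [ZMOD 2 ^ (s' + 2 + 1)]) ∧
      (∃ m : ℤ, m ^ 2 = ((p.2 : ℕ) : ℤ) ∧ m ≡ c + 2 ^ (s' + 2) [ZMOD 2 ^ (s' + 2 + 1)]))).card := by
    refine Finset.card_bij (fun p _ => (p.1.natAbs ^ 2, p.2.natAbs ^ 2)) ?_ ?_ ?_
    · rintro ⟨m, n⟩ hp
      obtain ⟨ha, hb, hc'⟩ := (hmemP m n).mp hp
      simp only [Finset.mem_filter, HasAntidiagonal.mem_antidiagonal]
      refine ⟨?_, ⟨m, by push_cast; rw [sq_abs], ha⟩, ⟨n, by push_cast; rw [sq_abs], hb⟩⟩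
      zify
      rw [sq_abs, sq_abs]
      exact hc'
    · rintro ⟨m, n⟩ hp ⟨m', n'⟩ hp' h
      obtain ⟨ha, hb, _⟩ := (hmemP m n).mp hp
      obtain ⟨ha', hb', _⟩ := (hmemP m' n').mp hp'
      simp only [Prod.mk.injEq] at h
      obtain ⟨h1, h2⟩ := h
      have h1' : m.natAbs = m'.natAbs := by
        exact Nat.pow_left_injective (by norm_num : (2 : ℕ) ≠ 0) h1
      have h2' : n.natAbs = n'.natAbs := by
        exact Nat.pow_left_injective (by norm_num : (2 : ℕ) ≠ 0) h2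
      obtain ⟨k1, e1⟩ := hcm _ _ ha
      obtain ⟨k2, e2⟩ := hcm _ _ ha'
      obtain ⟨k3, e3⟩ := hcm _ _ hb
      obtain ⟨k4, e4⟩ := hcm _ _ hb'
      rw [hpow4] at e3 e4
      have e1' : m = c + 4 * (2 * q * k1) := by rw [e1]; ring
      have e2' : m' = c + 4 * (2 * q * k2) := by rw [e2]; ring
      have e3' : n = c + 4 * (q + 2 * q * k3) := by rw [e3]; ring
      have e4' : n' = c + 4 * (q + 2 * q * k4) := by rw [e4]; ring
      have hm : m = m' := by omega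
      have hn : n = n' := by omega
      rw [hm, hn]
    · rintro ⟨i, j⟩ hp
      simp only [Finset.mem_filter, HasAntidiagonal.mem_antidiagonal] at hp
      obtain ⟨hij, ⟨m, hm, hmc⟩, ⟨n, hn, hnc⟩⟩ := hp
      refine ⟨(m, n), (hmemP m n).mpr ⟨hmc, hnc, ?_⟩, ?_⟩
      · rw [hm, hn]
        exact_mod_cast hij
      · have h1 : m.natAbs ^ 2 = i := by
          zify
          rw [sq_abs]
          exact hm
        have h2 : n.natAbs ^ 2 = j := by
          zify
          rw [sq_abs]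
          exact hn
        simp only [h1, h2]
  have h2 : P.card = ((antidiagonal N).filter (fun p =>
      (∃ m : ℕ, p.1 = 2 ^ (1 + 2 * (s' + 1)) * m ∧ ∃ b : ℤ, b ^ 2 = m ∧ b ≡ 1 [ZMOD 2 ^ 1]) ∧
      (∃ m : ℕ, p.2 = 2 * m ∧
        ∃ a : ℤ, a ^ 2 = m ∧ a ≡ c + 2 ^ (s' + 1) [ZMOD 2 ^ (s' + 2)]))).card := by
    have hpar : ∀ m n : ℤ, (m, n) ∈ P → ∃ a l : ℤ, m = a + 2 * q * (2 * l + 1) ∧
        n = a - 2 * q * (2 * l + 1) ∧ ∃ t, a = c + 2 * q + 4 * q * t := by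
      intro m n hp
      obtain ⟨ha, hb, _⟩ := (hmemP m n).mp hp
      obtain ⟨k1, e1⟩ := hcm _ _ ha
      obtain ⟨k3, e3⟩ := hcm _ _ hb
      rw [hpow4] at e3
      refine ⟨c + 2 * q + 4 * q * (k1 + k3), k1 - k3 - 1, ?_, ?_, k1 + k3, rfl⟩
      · rw [e1]; ring
      · rw [e3]; ring
    have hpow : (2 : ℤ) ^ (1 + 2 * (s' + 1)) = 8 * q ^ 2 := by
      rw [hq]
      ring
    refine Finset.card_bij (fun p _ => (((p.1 - p.2) ^ 2 / 2).toNat, ((p.1 + p.2) ^ 2 / 2).toNat))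
      ?_ ?_ ?_
    · rintro ⟨m, n⟩ hp
      obtain ⟨a, l, e1, e2, t, e3⟩ := hpar m n hp
      obtain ⟨_, _, hN⟩ := (hmemP m n).mp hp
      have hd : (m - n) ^ 2 / 2 = 8 * q ^ 2 * (2 * l + 1) ^ 2 := by
        have : (m - n) ^ 2 = 2 * (8 * q ^ 2 * (2 * l + 1) ^ 2) := by rw [e1, e2]; ring
        rw [this, Int.mul_ediv_cancel_left _ (by norm_num)]
      have hd2 : (m + n) ^ 2 / 2 = 2 * a ^ 2 := by
        have : (m + n) ^ 2 = 2 * (2 * a ^ 2) := by rw [e1, e2]; ring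
        rw [this, Int.mul_ediv_cancel_left _ (by norm_num)]
      simp only [Finset.mem_filter, HasAntidiagonal.mem_antidiagonal]
      rw [hd, hd2]
      have hnn1 : (0 : ℤ) ≤ 8 * q ^ 2 * (2 * l + 1) ^ 2 := by positivity
      have hnn2 : (0 : ℤ) ≤ 2 * a ^ 2 := by positivity
      refine ⟨?_, ⟨((2 * l + 1) ^ 2).toNat, ?_, 2 * l + 1, ?_, ?_⟩, ⟨(a ^ 2).toNat, ?_, a, ?_, ?_⟩⟩
      · zify
        rw [Int.toNat_of_nonneg hnn1, Int.toNat_of_nonneg hnn2, ← hN, e1, e2]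
        ring
      · zify
        rw [Int.toNat_of_nonneg hnn1, Int.toNat_of_nonneg (sq_nonneg _), hpow]
      · rw [Int.toNat_of_nonneg (sq_nonneg _)]
      · refine (Int.modEq_iff_dvd.mpr ⟨l, ?_⟩).symm
        ring
      · zify
        rw [Int.toNat_of_nonneg hnn2, Int.toNat_of_nonneg (sq_nonneg _)]
      · rw [Int.toNat_of_nonneg (sq_nonneg _)]
      · refine (Int.modEq_iff_dvd.mpr ⟨t, ?_⟩).symm
        rw [hpow4, hpow2, e3]
        ring
    · rintro ⟨m, n⟩ hp ⟨m', n'⟩ hp' h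
      obtain ⟨a, l, e1, e2, t, e3⟩ := hpar m n hp
      obtain ⟨a', l', e1', e2', t', e3'⟩ := hpar m' n' hp'
      simp only [Prod.mk.injEq] at h
      have hd : ∀ l a : ℤ, ((a + 2 * q * (2 * l + 1)) - (a - 2 * q * (2 * l + 1))) ^ 2 / 2 =
          8 * q ^ 2 * (2 * l + 1) ^ 2 := by
        intro l a
        have : ((a + 2 * q * (2 * l + 1)) - (a - 2 * q * (2 * l + 1))) ^ 2 =
          2 * (8 * q ^ 2 * (2 * l + 1) ^ 2) := by ring
        rw [this, Int.mul_ediv_cancel_left _ (by norm_num)]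
      have hd2 : ∀ l a : ℤ, ((a + 2 * q * (2 * l + 1)) + (a - 2 * q * (2 * l + 1))) ^ 2 / 2 =
          2 * a ^ 2 := by
        intro l a
        have : ((a + 2 * q * (2 * l + 1)) + (a - 2 * q * (2 * l + 1))) ^ 2 = 2 * (2 * a ^ 2) := by
          ring
        rw [this, Int.mul_ediv_cancel_left _ (by norm_num)]
      obtain ⟨h1, h2⟩ := h
      rw [e1, e2, e1', e2', hd, hd] at h1
      rw [e1, e2, e1', e2', hd2, hd2] at h2
      have hnn1 : (0 : ℤ) ≤ 8 * q ^ 2 * (2 * l + 1) ^ 2 := by positivity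
      have hnn2 : (0 : ℤ) ≤ 2 * a ^ 2 := by positivity
      have hnn1' : (0 : ℤ) ≤ 8 * q ^ 2 * (2 * l' + 1) ^ 2 := by positivity
      have hnn2' : (0 : ℤ) ≤ 2 * a' ^ 2 := by positivity
      have h1' : 8 * q ^ 2 * (2 * l + 1) ^ 2 = 8 * q ^ 2 * (2 * l' + 1) ^ 2 := by
        have := congrArg (fun x : ℕ => (x : ℤ)) h1
        simp only [Int.toNat_of_nonneg hnn1, Int.toNat_of_nonneg hnn1'] at this
        exact this
      have h2' : 2 * a ^ 2 = 2 * a' ^ 2 := by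
        have := congrArg (fun x : ℕ => (x : ℤ)) h2
        simp only [Int.toNat_of_nonneg hnn2, Int.toNat_of_nonneg hnn2'] at this
        exact this
      have h3 : (2 * l + 1) ^ 2 = (2 * l' + 1) ^ 2 :=
        mul_left_cancel₀ (by positivity) h1'
      have h4 : a ^ 2 = a' ^ 2 := by linarith
      have haa : a = a' := by
        rcases sq_eq_sq_iff_eq_or_eq_neg.mp h4 with h5 | h5
        · exact h5
        · exfalso
          have g1 : a = c + 2 * (q + 2 * q * t) := by rw [e3]; ring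
          have g2 : a' = c + 2 * (q + 2 * q * t') := by rw [e3']; ring
          have g3 : 2 * c + 4 * (q + q * t + q * t') = 0 := by
            have : a + a' = 0 := by rw [h5]; ring
            rw [e3, e3'] at this
            linarith
          omega
      rcases sq_eq_sq_iff_eq_or_eq_neg.mp h3 with h5 | h5
      · rw [e1, e2, e1', e2', haa, h5]
      · exfalso
        -- m = a + 2q(2l+1), m' = a - 2q(2l+1) = n
        obtain ⟨ha, hb, _⟩ := (hmemP m n).mp hp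
        obtain ⟨ha', hb', _⟩ := (hmemP m' n').mp hp'
        have g1 : m' = n := by rw [e1', e2, haa, h5]; ring
        obtain ⟨k1, f1⟩ := hcm _ _ ha'
        obtain ⟨k3, f3⟩ := hcm _ _ hb
        rw [hpow4] at f3
        rw [g1, f3] at f1
        have g2 : (4 * q) * (1 + 2 * (k3 - k1)) = 0 := by linarith
        rcases mul_eq_zero.mp g2 with g3 | g3
        · linarith
        · omega
    · rintro ⟨i, j⟩ hp
      simp only [Finset.mem_filter, HasAntidiagonal.mem_antidiagonal] at hp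
      obtain ⟨hij, ⟨m1, hm1, b, hb, hbc⟩, ⟨m2, hm2, a, ha, hac⟩⟩ := hp
      obtain ⟨l, hl⟩ := hbc.symm.dvd
      obtain ⟨t, ht⟩ := hac.symm.dvd
      rw [hpow4, hpow2] at ht
      have ht' : a = c + 2 * q + 4 * q * t := by linarith
      have hl' : b = 2 * l + 1 := by
        have : b - 1 = 2 ^ 1 * l := hl
        rw [pow_one] at this
        linarith
      have hi : (i : ℤ) = 8 * q ^ 2 * (2 * l + 1) ^ 2 := by
        rw [hm1]
        push_cast
        rw [hpow, ← hb, hl']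
      have hj : (j : ℤ) = 2 * a ^ 2 := by
        rw [hm2]
        push_cast
        rw [← ha]
      have hN : (N : ℤ) = i + j := by exact_mod_cast hij.symm
      have hfin : ∀ e : ℤ, (e = 1 ∨ e = -1) →
          (((a + 2 * q * (e * (2 * l + 1))) - (a - 2 * q * (e * (2 * l + 1)))) ^ 2 / 2).toNat = i ∧
          (((a + 2 * q * (e * (2 * l + 1))) + (a - 2 * q * (e * (2 * l + 1)))) ^ 2 / 2).toNat =
            j ∧ (a + 2 * q * (e * (2 * l + 1))) ^ 2 + (a - 2 * q * (e * (2 * l + 1))) ^ 2 = N := by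
        intro e he
        have he2 : e ^ 2 = 1 := by rcases he with rfl | rfl <;> norm_num
        refine ⟨?_, ?_, ?_⟩
        · have : ((a + 2 * q * (e * (2 * l + 1))) - (a - 2 * q * (e * (2 * l + 1)))) ^ 2 =
            2 * (i : ℤ) := by
            rw [hi]
            calc ((a + 2 * q * (e * (2 * l + 1))) - (a - 2 * q * (e * (2 * l + 1)))) ^ 2
                = e ^ 2 * (2 * (8 * q ^ 2 * (2 * l + 1) ^ 2)) := by ring
              _ = _ := by rw [he2, one_mul]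
          rw [this, Int.mul_ediv_cancel_left _ (by norm_num), Int.toNat_natCast]
        · have : ((a + 2 * q * (e * (2 * l + 1))) + (a - 2 * q * (e * (2 * l + 1)))) ^ 2 =
            2 * (j : ℤ) := by
            rw [hj]
            ring
          rw [this, Int.mul_ediv_cancel_left _ (by norm_num), Int.toNat_natCast]
        · rw [hN, hi, hj]
          calc (a + 2 * q * (e * (2 * l + 1))) ^ 2 + (a - 2 * q * (e * (2 * l + 1))) ^ 2
              = e ^ 2 * (8 * q ^ 2 * (2 * l + 1) ^ 2) + 2 * a ^ 2 := by ring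
            _ = _ := by rw [he2, one_mul]
      rcases Int.even_or_odd (t + l) with ⟨w, hw⟩ | ⟨w, hw⟩
      · obtain ⟨f1, f2, f3⟩ := hfin (-1) (Or.inr rfl)
        refine ⟨(a + 2 * q * ((-1) * (2 * l + 1)), a - 2 * q * ((-1) * (2 * l + 1))),
          (hmemP _ _).mpr ⟨?_, ?_, f3⟩, ?_⟩
        · refine hcm' _ _ (w - l) ?_
          have : t = w + w - l := by linarith
          rw [ht', this]
          ring
        · refine hcm' _ _ w ?_
          rw [hpow4]
          have : t = w + w - l := by linarith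
          rw [ht', this]
          ring
        · simp only [f1, f2]
      · obtain ⟨f1, f2, f3⟩ := hfin 1 (Or.inl rfl)
        refine ⟨(a + 2 * q * (1 * (2 * l + 1)), a - 2 * q * (1 * (2 * l + 1))),
          (hmemP _ _).mpr ⟨?_, ?_, f3⟩, ?_⟩
        · refine hcm' _ _ (w + 1) ?_
          have : t = 2 * w + 1 - l := by linarith
          rw [ht', this]
          ring
        · refine hcm' _ _ (w - l) ?_
          rw [hpow4]
          have : t = 2 * w + 1 - l := by linarith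
          rw [ht', this]
          ring
        · simp only [f1, f2]
  rw [← h1, ← h2]

end Pool.Agent.helper7.IG
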