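import Pool.Agent.helper7.IG.Stmt1

/-!
# IG: modules SQ and P3
-/

set_option autoImplicit false

namespace Pool.Agent.helper7.IG

lemma sq_aux (u : ℤ) (hu : u ≡ 1 [ZMOD 8]) (n : ℕ) :
    ∃ d : ℤ, Odd d ∧ (2 : ℤ) ^ (n + 3) ∣ d ^ 2 - u := by
  induction n with
  | zero =>
    refine ⟨1, odd_one, ?_⟩
    have h := hu.dvd
    have h2 : (8 : ℤ) ∣ 1 - u := h
    norm_num
    exact h2
  | succ n ih =>
    obtain ⟨d, hd, k, hk⟩ := ih
    rcases Int.even_or_odd k with ⟨l, hl⟩ | ⟨l, hl⟩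
    · refine ⟨d, hd, l, ?_⟩
      rw [hk, hl]
      ring
    · obtain ⟨e, he⟩ := hd
      refine ⟨d + 2 ^ (n + 2), ?_, l + 1 + e + 2 ^ n, ?_⟩
      · refine ⟨e + 2 ^ (n + 1), ?_⟩
        rw [he]
        ring
      · have h1 : (d + 2 ^ (n + 2)) ^ 2 - u = (d ^ 2 - u) + 2 ^ (n + 3) * d + 2 ^ (n + 4) * 2 ^ n := by
          ring
        rw [h1, hk, hl, he]
        ring

theorem SQ : SQ_stmt := by
  intro n u hu
  obtain ⟨d, hd, h⟩ := sq_aux u hu n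
  refine ⟨d, hd, ?_⟩
  have h1 : (2 : ℤ) ^ n ∣ d ^ 2 - u := (pow_dvd_pow 2 (by omega)).trans h
  exact (Int.modEq_iff_dvd.mpr h1).symm

lemma p3_pow (n : ℕ) : ∃ k : ℤ, (3 : ℤ) ^ (2 ^ (n + 1)) = 1 + 2 ^ (n + 3) * (2 * k + 1) := by
  induction n with
  | zero => exact ⟨0, by norm_num⟩
  | succ n ih =>
    obtain ⟨k, hk⟩ := ih
    refine ⟨k + 2 ^ (n + 1) * (2 * k + 1) ^ 2, ?_⟩
    have h1 : (3 : ℤ) ^ (2 ^ (n + 1 + 1)) = ((3 : ℤ) ^ (2 ^ (n + 1))) ^ 2 := by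
      rw [← pow_mul]
      congr 1
    rw [h1, hk]
    ring

lemma p3_aux (c : ℤ) (hc : Odd c) (n : ℕ) :
    ∃ (i : ℕ) (e : ℤ), (e = 1 ∨ e = -1) ∧ (2 : ℤ) ^ (n + 3) ∣ c - e * 3 ^ i := by
  induction n with
  | zero =>
    obtain ⟨m, hm⟩ := hc
    have h4 : m % 4 = 0 ∨ m % 4 = 1 ∨ m % 4 = 2 ∨ m % 4 = 3 := by omega
    rcases h4 with h | h | h | h
    · exact ⟨0, 1, Or.inl rfl, by norm_num; omega⟩
    · exact ⟨1, 1, Or.inl rfl, by norm_num; omega⟩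
    · exact ⟨1, -1, Or.inr rfl, by norm_num; omega⟩
    · exact ⟨0, -1, Or.inr rfl, by norm_num; omega⟩
  | succ n ih =>
    obtain ⟨i, e, he, k, hk⟩ := ih
    rcases Int.even_or_odd k with ⟨l, hl⟩ | ⟨l, hl⟩
    · refine ⟨i, e, he, l, ?_⟩
      rw [hk, hl]
      ring
    · obtain ⟨k', hk'⟩ := p3_pow n
      have h3 : Odd ((3 : ℤ) ^ i) := Odd.pow (by decide)
      obtain ⟨t, ht⟩ := h3
      have he2 : ∃ f : ℤ, e = 2 * f + 1 := by
        rcases he with rfl | rfl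
        · exact ⟨0, by norm_num⟩
        · exact ⟨-1, by norm_num⟩
      obtain ⟨f, hf⟩ := he2
      refine ⟨i + 2 ^ (n + 1), e, he,
        l - f - e * t - e * (2 * t + 1) * k', ?_⟩
      have h5 : c - e * 3 ^ (i + 2 ^ (n + 1)) =
          (c - e * 3 ^ i) - e * 3 ^ i * ((3 : ℤ) ^ (2 ^ (n + 1)) - 1) := by
        rw [pow_add]
        ring
      rw [h5, hk, hk', hl, ht]
      have h6 : (2 : ℤ) ^ (n + 1 + 3) = 2 * 2 ^ (n + 3) := by ring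
      rw [h6]
      have h7 : (2 : ℤ) ^ (n + 3) * (2 * l + 1) -
          e * (2 * t + 1) * (1 + 2 ^ (n + 3) * (2 * k' + 1) - 1) -
          2 * 2 ^ (n + 3) * (l - f - e * t - e * (2 * t + 1) * k') =
          2 ^ (n + 3) * (2 * f + 1 - e) := by ring
      rw [← hf] at h7
      linarith [h7]

theorem P3 : P3_stmt := by
  intro s c hc
  obtain ⟨i, e, he, h⟩ := p3_aux c hc s
  have h1 : (2 : ℤ) ^ s ∣ c - e * 3 ^ i := (pow_dvd_pow 2 (by omega)).trans h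
  refine ⟨i, ?_⟩
  rcases he with rfl | rfl
  · left
    have h2 := (Int.modEq_iff_dvd.mpr h1).symm
    simpa using h2
  · right
    have h2 := (Int.modEq_iff_dvd.mpr h1).symm
    simpa using h2

end Pool.Agent.helper7.IG
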