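import Pool.Agent.helper7.IG.Basic

/-!
# IG: modules TR1 and TR2
-/

set_option autoImplicit false

noncomputable section

namespace Pool.Agent.helper7.IG

/-- An element of `NS N` cannot map `(N / m, 1)` to a vertex with a large first coordinate. -/
lemma tr1_type (hDI : DI_stmt) (hTY : TY_stmt) (hTYM : TYM_stmt) (Φ : Frame) (N m : ℕ)
    (hN : Odd N) (hm : m ∣ N) (g : Φ.A ≃ₐ[kk] Φ.A) (hg : g (Φ.D (N, 1)) = Φ.D (N, 1))
    (v : Vx) (hv : Odd v.1) (h : g (Φ.D (N / m, 1)) = Φ.D v) :
    N ∣ v.1 * m ∧ v.1 ≤ N * m := by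
  obtain ⟨l, hl, hTy⟩ := hTY.2.1 N m hN hm
  have h1 := hTy 1 (one_pow m)
  obtain ⟨v', hv', hg'⟩ := hTYM Φ N g l (N / m, 1) hN (by rw [hl]; exact hm) hg h1
  obtain ⟨ho, hd, hle, _⟩ := hTY.1 N l v' hN hv'
  have heq : v' = v := hDI Φ v' v ho hv (by rw [← hg', h])
  rw [heq, hl] at hd hle
  exact ⟨hd, hle⟩

lemma tr1_prime {N m p : ℕ} (hN : Odd N) (h : (m * p) ^ 2 ∣ N) : p ≠ 2 := by
  rintro rfl
  have h2 : 2 ∣ N := (Dvd.intro_left (m * m * 2) (by ring) : (2 : ℕ) ∣ (m * 2) ^ 2).trans h
  rw [Nat.odd_iff] at hN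
  omega

/-- Arithmetic data of the inductive step. -/
lemma tr1_arith {N m p : ℕ} (hN : Odd N) (hp : p.Prime) (h : (m * p) ^ 2 ∣ N) :
    0 < m ∧ 0 < N ∧ m ^ 2 ∣ N ∧ m ∣ N ∧ N / m = p * (N / (m * p)) ∧ p ∣ N / m ∧ p ∣ N ∧
      Odd (N / m) ∧ Odd (N / (m * p)) ∧ Odd m ∧ Odd p ∧ 0 < N / (m * p) ∧
      N = N / (m * p) * (m * p) := by
  obtain ⟨k, hk⟩ := h
  have hN0 : 0 < N := hN.pos
  have hp0 : 0 < p := hp.pos
  have hm0 : 0 < m := by
    rcases Nat.eq_zero_or_pos m with h0 | h0
    · subst h0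
      simp at hk
      omega
    · exact h0
  have hmp : 0 < m * p := Nat.mul_pos hm0 hp0
  have e1 : N = (m * p) * (m * p * k) := by rw [hk]; ring
  have e2 : N / (m * p) = m * p * k := by
    conv_lhs => rw [e1]
    exact Nat.mul_div_cancel_left _ hmp
  have e3 : N / m = p * (m * p * k) := by
    have : N = m * (p * (m * p * k)) := by rw [hk]; ring
    conv_lhs => rw [this]
    exact Nat.mul_div_cancel_left _ hm0
  have ho1 : Odd ((m * p) * (m * p * k)) := by rw [← e1]; exact hN
  have ho2 : Odd (m * p) := Nat.Odd.of_mul_left ho1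
  have ho3 : Odd (m * p * k) := Nat.Odd.of_mul_right ho1
  refine ⟨hm0, hN0, ⟨p ^ 2 * k, by rw [hk]; ring⟩, ⟨m * p ^ 2 * k, by rw [hk]; ring⟩,
    by rw [e3, e2], by rw [e3]; exact dvd_mul_right _ _, ⟨m ^ 2 * p * k, by rw [hk]; ring⟩, ?_, ?_,
    Nat.Odd.of_mul_left ho2, Nat.Odd.of_mul_right ho2, ?_, ?_⟩
  · rw [e3]
    exact (Nat.Odd.of_mul_right ho2).mul ho3
  · rw [e2]
    exact ho3
  · rw [e2]
    exact ho3.pos
  · rw [e2, hk]
    ring

lemma tr1_cases (m : ℕ) (hm : m ≠ 0) : m = 1 ∨ ∃ p m', p.Prime ∧ m = m' * p ∧ m' < m := by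
  by_cases h : m = 1
  · exact Or.inl h
  · right
    refine ⟨m.minFac, m / m.minFac, Nat.minFac_prime h, ?_, ?_⟩
    · exact (Nat.div_mul_cancel (Nat.minFac_dvd m)).symm
    · exact Nat.div_lt_self (Nat.pos_of_ne_zero hm) (Nat.minFac_prime h).one_lt

lemma tr1_inv {A : Type} [Field A] [Algebra kk A] (g : A ≃ₐ[kk] A) {x y : A} (h : g x = y) :
    g⁻¹ y = x := by
  rw [← h]
  exact g.symm_apply_apply x

theorem TR1_of (_hME : ME_stmt) (hDI : DI_stmt) (hNB : NB_stmt) (hTY : TY_stmt)
    (hTYM : TYM_stmt) (hNSF : NSF_stmt) (hTRL : TRL_stmt) : TR1_stmt := by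
  intro Φ N m
  induction m using Nat.strong_induction_on with
  | _ m ih =>
    intro hN hm
    have hm0 : m ≠ 0 := by
      rintro rfl
      rw [zero_pow two_ne_zero, zero_dvd_iff] at hm
      subst hm
      exact absurd hN (by decide)
    rcases tr1_cases m hm0 with rfl | ⟨p, m', hp, rfl, hlt⟩
    · refine ⟨1, one_mem _, ?_⟩
      rw [Nat.div_one, mul_one]
      rfl
    · obtain ⟨hm'0, hN0, hm'2, hm'N, e1, hpd, hpN, ho1, ho2, hom, hop, hpos, e2⟩ :=
        tr1_arith hN hp hm
      obtain ⟨n, hn, hnD⟩ := ih m' hlt hN hm'2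
      have hninv := tr1_inv n hnD
      have hp2 := tr1_prime hN hm
      obtain ⟨w, hw, hwD⟩ := hNB Φ n⁻¹ (N * m', 1) (N / m', 1) p hp hp2 (hN.mul hom) ho1
        (hpN.mul_right _) hpd hninv (p * (N * m'), 1) (Or.inl ⟨rfl, (one_pow p).symm⟩)
      have hw2 : Nb p (N / m', 1) (N / (m' * p), 1) := Or.inr ⟨e1, one_pow p⟩
      have hcond : p ∣ m' → w ≠ (p * (N / m'), 1) ∧ (N / (m' * p), (1 : kkˣ)) ≠ (p * (N / m'), 1) := by
        intro hpm
        constructor
        · rintro rfl
          obtain ⟨m'', hm''⟩ := hpm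
          have h3 := tr1_inv n⁻¹ hwD
          rw [inv_inv] at h3
          have e3 : p * (N / m') = N / m'' := by
            have hm''0 : 0 < m'' := by
              rcases Nat.eq_zero_or_pos m'' with h0 | h0
              · subst h0
                simp at hm''
                omega
              · exact h0
            have e4 : N = m'' * (p * (N / m')) := by
              have e5 : m'' * (p * (N / m')) = (p * m'') * (N / m') := by ring
              rw [e5, ← hm'', Nat.mul_div_cancel' hm'N]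
            conv_rhs => rw [e4]
            exact (Nat.mul_div_cancel_left _ hm''0).symm
          rw [e3] at h3
          have hm''N : m'' ∣ N := (Dvd.intro_left p hm''.symm).trans hm'N
          have h4 := (tr1_type hDI hTY hTYM Φ N m'' hN hm''N n (hNSF Φ N n hN hn)
            (p * (N * m'), 1) (hop.mul (hN.mul hom)) h3).2
          have h5 : p * (N * m') = N * m'' * (p * p) := by
            rw [hm'']
            ring
          simp only at h4
          rw [h5] at h4
          have h6 : 0 < m'' := Nat.pos_of_ne_zero (by rintro rfl; simp at hm''; omega)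
          have h7 : 0 < N * m'' := Nat.mul_pos hN0 h6
          have h8 : 4 ≤ p * p := Nat.mul_le_mul hp.two_le hp.two_le
          nlinarith
        · intro h
          have h1 : N / (m' * p) = p * (N / m') := congrArg Prod.fst h
          rw [e1] at h1
          have h8 : 4 ≤ p * p := Nat.mul_le_mul hp.two_le hp.two_le
          nlinarith
      obtain ⟨n2, hn2, _, hn2D⟩ := hTRL Φ N m' p w (N / (m' * p), 1) hN hp hp2 hm hw hw2 hcond
      refine ⟨n * n2, mul_mem hn hn2, ?_⟩
      have h9 : (n * n2) (Φ.D (N / (m' * p), 1)) = n (n2 (Φ.D (N / (m' * p), 1))) := rfl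
      have h10 := tr1_inv n⁻¹ hwD
      rw [inv_inv] at h10
      rw [h9, hn2D, h10]
      congr 2
      ring

theorem TR2_of (_hME : ME_stmt) (hDI : DI_stmt) (hNB : NB_stmt) (hTY : TY_stmt)
    (hTYM : TYM_stmt) (hNSF : NSF_stmt) (hTRL : TRL_stmt) : TR2_stmt := by
  intro Φ N m g
  induction m using Nat.strong_induction_on with
  | _ m ih =>
    intro hN hm hg
    have hm0 : m ≠ 0 := by
      rintro rfl
      rw [zero_pow two_ne_zero, zero_dvd_iff] at hm
      subst hm
      exact absurd hN (by decide)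
    rcases tr1_cases m hm0 with rfl | ⟨p, m', hp, rfl, hlt⟩
    · refine ⟨1, one_mem _, ?_⟩
      rw [Nat.div_one, hg]
      rfl
    · obtain ⟨hm'0, hN0, hm'2, hm'N, e1, hpd, hpN, ho1, ho2, hom, hop, hpos, e2⟩ :=
        tr1_arith hN hp hm
      obtain ⟨n, hn, hnD⟩ := ih m' hlt hN hm'2 hg
      have hp2 := tr1_prime hN hm
      have hg' : (n * g) (Φ.D (N / m', 1)) = Φ.D (N / m', 1) := hnD
      obtain ⟨w, hw, hwD⟩ := hNB Φ (n * g) (N / m', 1) (N / m', 1) p hp hp2 ho1 ho1
        hpd hpd hg' (N / (m' * p), 1) (Or.inr ⟨e1, one_pow p⟩)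
      have hw2 : Nb p (N / m', 1) (N / (m' * p), 1) := Or.inr ⟨e1, one_pow p⟩
      have hgN : (n * g) (Φ.D (N, 1)) = Φ.D (N, 1) := by
        have : (n * g) (Φ.D (N, 1)) = n (g (Φ.D (N, 1))) := rfl
        rw [this, hg, hNSF Φ N n hN hn]
      have hcond : p ∣ m' → (N / (m' * p), (1 : kkˣ)) ≠ (p * (N / m'), 1) ∧ w ≠ (p * (N / m'), 1) := by
        intro hpm
        constructor
        · intro h
          have h1 : N / (m' * p) = p * (N / m') := congrArg Prod.fst h
          rw [e1] at h1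
          have h8 : 4 ≤ p * p := Nat.mul_le_mul hp.two_le hp.two_le
          nlinarith
        · rintro rfl
          obtain ⟨m'', hm''⟩ := hpm
          have h3 := tr1_inv (n * g) hwD
          have hm''0 : 0 < m'' := by
            rcases Nat.eq_zero_or_pos m'' with h0 | h0
            · subst h0
              simp at hm''
              omega
            · exact h0
          have e3 : p * (N / m') = N / m'' := by
            have e4 : N = m'' * (p * (N / m')) := by
              have e5 : m'' * (p * (N / m')) = (p * m'') * (N / m') := by ring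
              rw [e5, ← hm'', Nat.mul_div_cancel' hm'N]
            conv_rhs => rw [e4]
            exact (Nat.mul_div_cancel_left _ hm''0).symm
          rw [e3] at h3
          have hm''N : m'' ∣ N := (Dvd.intro_left p hm''.symm).trans hm'N
          have h4 := (tr1_type hDI hTY hTYM Φ N m'' hN hm''N (n * g)⁻¹ (tr1_inv _ hgN)
            (N / (m' * p), 1) ho2 h3).1
          simp only at h4
          have h5 : N ≤ N / (m' * p) * m'' := Nat.le_of_dvd (Nat.mul_pos hpos hm''0) h4
          have h6 : N / (m' * p) * (m' * p) = N / (m' * p) * m'' * (p * p) := by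
            rw [hm'']
            ring
          have h8 : 4 ≤ p * p := Nat.mul_le_mul hp.two_le hp.two_le
          have h7 : 0 < N / (m' * p) * m'' := Nat.mul_pos hpos hm''0
          rw [h6] at e2
          nlinarith
      obtain ⟨n2, hn2, _, hn2D⟩ := hTRL Φ N m' p (N / (m' * p), 1) w hN hp hp2 hm hw2 hw hcond
      refine ⟨n2 * n, mul_mem hn2 hn, ?_⟩
      have h9 : (n2 * n) (g (Φ.D (N / (m' * p), 1))) = n2 ((n * g) (Φ.D (N / (m' * p), 1))) := rfl
      rw [h9, hwD, hn2D]

end Pool.Agent.helper7.IG
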